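import Pool.Agent.H13Z.FreeP.Exists

open Pool.Agent.H13Z.FreeP

universe u

/-- For real or complex scalars, `0 < p < 1` and a bounded metric space `M`, a bounded subset of
the free `p`-space that fails Kalton's property contains a sequence equivalent to the canonical
basis of `ℓ_p`.  The hypothesis `IsFreeP` is satisfiable by
`Pool.Agent.H13Z.FreeP.exists_isFreeP`. -/
theorem Pool.Agent.Results.MP_1a7c10_an.AKaltonLp.result :
    ∀ (𝕜 : Type) [RCLike 𝕜] (p : ℝ), 0 < p → p < 1 → ∀ (M : Type u) [MetricSpace M] (o : M),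
      (∃ D : ℝ, ∀ x y : M, dist x y ≤ D) →
      ∀ (F : Type u) [AddCommGroup F] [Module 𝕜 F] (N : F → ℝ) (δ : M → F),
      IsFreeP 𝕜 p o N δ → ∀ W : Set F, (∃ B : ℝ, ∀ w ∈ W, N w ≤ B) → ¬ KaltonProp 𝕜 N δ W →
      ∃ x : ℕ → F, (∀ n, x n ∈ W) ∧ EquivLpBasis 𝕜 p N x :=
  fun _ _ _ hp hp1 _ _ _ hM _ _ _ _ _ h W hW hK => h.kalton hp hp1.le hM W hW hK
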